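import Mathlib

namespace Pool.Agent.Results.MP_ce417a_nt.PI

open Matrix

def psi {m n r : ℕ} (P : Fin n → List (Fin r)) (X : Fin r → Matrix (Fin m) (Fin m) ℝ) :
    Matrix (Fin m) (Fin n × Fin m) ℝ :=
  Matrix.of fun i j => ((P j.1).map X).prod i j.2

def VWA {m : ℕ} {J : Type} [Fintype J] (A : Matrix (Fin m) J ℝ) : Prop :=
  ∃ τ : ℝ, (Fintype.card J : ℝ) / m < τ ∧ Set.Infinite {q : J → ℤ | q ≠ 0 ∧ ∃ p : Fin m → ℤ,
    ‖A *ᵥ (fun j => (q j : ℝ)) - fun i => (p i : ℝ)‖ < ‖fun j => (q j : ℝ)‖ ^ (-τ)}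

def VWMA {m : ℕ} {J : Type} [Fintype J] (A : Matrix (Fin m) J ℝ) : Prop :=
  ∃ τ : ℝ, 1 < τ ∧ Set.Infinite {q : J → ℤ | q ≠ 0 ∧ ∃ p : Fin m → ℤ,
    ∏ i, |(A *ᵥ fun j => (q j : ℝ)) i - p i| < (∏ j, max |(q j : ℝ)| 1) ^ (-τ)}

def P0 : Fin 6 → List (Fin 2) :=
  ![[0, 1, 1, 0, 0], [1, 0, 0, 1, 0], [0, 0, 1, 0, 1], [1, 0, 1, 0, 0], [0, 0, 1, 1, 0],
    [0, 1, 0, 0, 1]]

def q0 (t : ℕ) : Fin 6 × Fin 2 → ℤ := fun j => if j.2 = 0 then (if j.1 < 3 then t + 1 else -(t + 1)) else 0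

lemma ker (X : Fin 2 → Matrix (Fin 2) (Fin 2) ℝ) (t : ℕ) :
    psi P0 X *ᵥ (fun j => (q0 t j : ℝ)) = 0 := by
  funext i
  simp only [mulVec, dotProduct, Fintype.sum_prod_type, Fin.sum_univ_succ, Fin.sum_univ_zero, psi,
    P0, q0, of_apply]
  fin_cases i <;> simp [Matrix.mul_apply, Fin.sum_univ_two] <;> ring

theorem result : ∃ (m n r : ℕ) (P : Fin n → List (Fin r)), 2 ≤ m ∧ 1 ≤ n ∧ 1 ≤ r ∧
    Function.Injective P ∧ (∀ l, P l ≠ []) ∧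
    ∀ X : Fin r → Matrix (Fin m) (Fin m) ℝ, VWA (psi P X) ∧ VWMA (psi P X) := by
  have hi : Function.Injective q0 := fun s t h => by
    have := congrFun h (0, 0)
    simpa [q0] using this
  have h0 : ∀ t, q0 t ≠ 0 := fun t h => by
    have := congrFun h (0, 0)
    simp [q0] at this
    omega
  refine ⟨2, 6, 2, P0, le_rfl, by norm_num, by norm_num, by decide, by decide, fun X =>
    ⟨⟨7, by simp; norm_num, Set.infinite_of_injective_forall_mem hi fun t => ⟨h0 t, 0, ?_⟩⟩,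
     ⟨2, by norm_num, Set.infinite_of_injective_forall_mem hi fun t => ⟨h0 t, 0, ?_⟩⟩⟩⟩
  · rw [ker]
    refine lt_of_eq_of_lt (by simp [← Pi.zero_def]) (Real.rpow_pos_of_pos (norm_pos_iff.2 ?_) _)
    intro h
    exact h0 t (funext fun j => by simpa using congrFun h j)
  · rw [ker]
    refine lt_of_eq_of_lt (by simp) (Real.rpow_pos_of_pos (Finset.prod_pos fun j _ => ?_) _)
    positivity

end Pool.Agent.Results.MP_ce417a_nt.PI
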